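import Pool.Agent.Helper65.KH.Goals

/-!
# Project KH (MP_20ee5e_ag): UB, the upper bound by the box
-/

set_option autoImplicit false

open MvPolynomial MeasureTheory

namespace Pool.Agent.Helper98.KH.UB

open Pool.Agent.Helper65.KH

theorem t (hSP : S_SP2) (hFN : S_FN) : S_UB := by
  intro ι _ _ V θ Box hC hG hT hB M
  obtain ⟨-, -, h3, -⟩ := hFN ι V θ hC (fun i => (hT.1 i).1)
  have hfl : fl V θ ((M : ℝ) + Fintype.card ι) ≤ mm ι M := by
    unfold fl mm
    rw [Ideal.span_le]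
    rintro f ⟨p, hp, rfl⟩
    apply Ideal.subset_span
    refine ⟨p, ?_, rfl⟩
    have h1 := h3 p
    have h2 : ∑ i, ((p i : ℝ) + θ i) ≤ ∑ i, (p i : ℝ) + Fintype.card ι := by
      rw [Finset.sum_add_distrib]
      have : ∑ i, θ i ≤ ∑ _i : ι, (1 : ℝ) := Finset.sum_le_sum fun i _ => (hT.1 i).2.le
      rw [Finset.sum_const, Finset.card_univ, nsmul_eq_mul, mul_one] at this
      linarith
    have h4 : (M : ℝ) ≤ ∑ i, (p i : ℝ) := by linarith
    exact_mod_cast h4
  have hsp : ∀ f : MvPolynomial ι ℚ, ∃ c : (ι → ℕ) → ℚ,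
      f - ∑ b ∈ Box, c b • mon b ∈ idl (Lp V) ⊔ mm ι M := by
    intro f
    obtain ⟨c, hc⟩ := hSP ι V θ Box hC hG hT hB ((M : ℝ) + Fintype.card ι) f
    exact ⟨c, sup_le_sup_left hfl _ hc⟩
  classical
  unfold dq
  generalize idl (Lp V) ⊔ mm ι M = Q at hsp
  have htop : Submodule.span ℚ ((Box.image fun b => (Ideal.Quotient.mk Q (mon b)) :
      Finset (MvPolynomial ι ℚ ⧸ Q)) : Set (MvPolynomial ι ℚ ⧸ Q)) = ⊤ := by
    rw [eq_top_iff]
    rintro x -
    obtain ⟨f, rfl⟩ := Ideal.Quotient.mk_surjective x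
    obtain ⟨c, hc⟩ := hsp f
    have e : Ideal.Quotient.mk Q f = ∑ b ∈ Box, c b • Ideal.Quotient.mk Q (mon b) := by
      have h5 := Ideal.Quotient.eq.2 hc
      rw [h5, map_sum]
      rfl
    rw [e]
    exact Submodule.sum_mem _ fun b hb => Submodule.smul_mem _ _
      (Submodule.subset_span (Finset.mem_coe.2 (Finset.mem_image_of_mem _ hb)))
  rw [← finrank_top, ← htop]
  exact (finrank_span_finset_le_card _).trans Finset.card_image_le

end Pool.Agent.Helper98.KH.UB
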